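import Pool.Agent.Helper95.BK.Defs4
import Pool.Agent.BK.Solomon

/-!
The order of vanishing formula in terms of short definitions.
-/

open scoped Pointwise NumberField
open Polynomial IsDedekindDomain

namespace Pool.BK

namespace Short

section Group

variable {G O : Type} [Group G] [CommRing O] [MulSemiringAction G O] {n : ℕ}
variable {F : Type} [Field F]

/-- The operator `ρ g` on column vectors. -/
noncomputable def op (ρ : G →* Matrix (Fin n) (Fin n) F) (g : G) : (Fin n → F) →ₗ[F] (Fin n → F) :=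
  Matrix.toLin' (ρ g)

/-- `ρ g` maps the vectors fixed by `H` to vectors fixed by `H` (for instance when `g` normalises
`H`). -/
def Stable (ρ : G →* Matrix (Fin n) (Fin n) F) (H : Subgroup G) (g : G) : Prop :=
  ∀ v ∈ invSub ρ H, op ρ g v ∈ invSub ρ H

/-- The action of `ρ g` on the vectors fixed by `H`. -/
noncomputable def restr (ρ : G →* Matrix (Fin n) (Fin n) F) (H : Subgroup G) (g : G)
    (h : Stable ρ H g) : Module.End F (invSub ρ H) :=
  (op ρ g).restrict h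

open Classical in
/-- The polynomial `det (1 - T φ⁻¹)` on the vectors fixed by the inertia group of the prime `P`
(`φ` will be an arithmetic Frobenius at `P`, so that `φ⁻¹` is a geometric one); it is `1` when
`φ⁻¹` does not preserve this space, which does not occur for such `φ`. -/
noncomputable def eulerPoly (ρ : G →* Matrix (Fin n) (Fin n) F) (P : Ideal O) (φ : G) : F[X] :=
  if h : Stable ρ (P.inertia G) φ⁻¹ then (restr ρ _ _ h).charpoly.reverse else 1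

theorem eulerPoly_eq (ρ : G →* Matrix (Fin n) (Fin n) F) (P : Ideal O) (φ : G) :
    eulerPoly ρ P φ = Pool.BK.eulerPoly ρ P φ := by
  by_cases h : Stable ρ (P.inertia G) φ⁻¹
  · have h' : ∀ v ∈ invSub ρ (P.inertia G), Matrix.toLin' (ρ φ⁻¹) v ∈ invSub ρ (P.inertia G) := h
    rw [eulerPoly, Pool.BK.eulerPoly, endOn, dif_pos h, dif_pos h']
    rfl
  · have h' : ¬ ∀ v ∈ invSub ρ (P.inertia G), Matrix.toLin' (ρ φ⁻¹) v ∈ invSub ρ (P.inertia G) := h
    rw [eulerPoly, Pool.BK.eulerPoly, endOn, dif_neg h, dif_neg h', LinearMap.charpoly_zero,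
      ← one_mul (X ^ _), reverse_mul_X_pow, ← C_1, reverse_C]

variable {p : ℕ} [Fact p.Prime] [TopologicalSpace G]

/-- The Bloch-Kato Selmer group has finite dimension. -/
def FinH1f (ρ : G →* Matrix (Fin n) (Fin n) ℚ_[p]) (B : PeriodData G O p) : Prop :=
  Module.Finite ℚ_[p] (H1f ρ B)

/-- The dimension of the Bloch-Kato Selmer group. -/
noncomputable def h1f (ρ : G →* Matrix (Fin n) (Fin n) ℚ_[p]) (B : PeriodData G O p) : ℕ :=
  Module.finrank ℚ_[p] (H1f ρ B)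

end Group

section Fields

variable (L Ω : Type) [Field L] [NumberField L] [Field Ω] [Algebra L Ω]

/-- The ideal `Q` lies above the place `v`. -/
def Above (v : HeightOneSpectrum (𝓞 L)) (Q : Ideal (𝓞 Ω)) : Prop :=
  Q.IsPrime ∧ Q.under (𝓞 L) = v.asIdeal

/-- `φ` is an arithmetic Frobenius at the prime `Q` above the place `v`. -/
def IsFrob (v : HeightOneSpectrum (𝓞 L)) (Q : Ideal (𝓞 Ω)) (φ : Ω ≃ₐ[L] Ω) : Prop :=
  ∀ x : 𝓞 Ω, φ • x - x ^ v.asIdeal.absNorm ∈ Q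

/-- `P v` is the Euler polynomial `det (1 - T Frob_v | V_l^{I_v})` at the finite place `v`, for
every finite place `v` and every prime number `l` not below `v`. -/
def IsEulerFamily (V : LSystem (Ω ≃ₐ[L] Ω)) (P : HeightOneSpectrum (𝓞 L) → ℚ[X]) : Prop :=
  ∀ (v : HeightOneSpectrum (𝓞 L)) (l : ℕ) [Fact l.Prime], (l : 𝓞 L) ∉ v.asIdeal →
    ∀ Q : Ideal (𝓞 Ω), Above L Ω v Q → ∀ φ : Ω ≃ₐ[L] Ω, IsFrob L Ω v Q φ →
      eulerPoly (V.rep l) Q φ = (P v).map (algebraMap ℚ ℚ_[l])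

/-- The Euler product with the factors `P` converges for `Re s > σ`, and its `m`-th power continues
to the meromorphic function `Λ` on a neighbourhood of the half line `[0, ∞)`. -/
def Continues (P : HeightOneSpectrum (𝓞 L) → ℚ[X]) (m : ℕ) (σ : ℝ) (U : Set ℂ) (Λ : ℂ → ℂ) :
    Prop :=
  IsOpen U ∧ {s : ℂ | σ < s.re} ⊆ U ∧ (∀ t : ℝ, 0 ≤ t → (t : ℂ) ∈ U) ∧ MeromorphicOn Λ U ∧
    ∀ s : ℂ, σ < s.re → ∃ z : ℂ, z ≠ 0 ∧ HasProd (eulerFactor L P s) z ∧ Λ s = z ^ m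

/-- The order of `Λ` at `0` is the integer `k`. -/
def OrderIs (Λ : ℂ → ℂ) (k : ℤ) : Prop := meromorphicOrderAt Λ 0 = (k : WithTop ℤ)

/-- The order of `Λ` at `0` is `m (dim H¹_f - dim H⁰)`, for every prime `p`. -/
def OrderFormula (V : LSystem (Ω ≃ₐ[L] Ω))
    (B : ∀ (p : ℕ) [Fact p.Prime], PeriodData (Ω ≃ₐ[L] Ω) (𝓞 Ω) p) (m : ℕ) (Λ : ℂ → ℂ) : Prop :=
  ∀ (p : ℕ) [Fact p.Prime], FinH1f (V.rep p) (B p) ∧
    OrderIs Λ (m * ((h1f (V.rep p) (B p) : ℤ) - (h0 (V.rep p) : ℤ)))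

/-- The assertion of the conjecture for the `m`-th power of the L-function of `V`: the Euler
polynomials are rational and independent of `l`, the Euler product converges in a right half
plane, its `m`-th power continues meromorphically to a neighbourhood of the real half line
`[0, ∞)`, and for every prime `p` the order at `0` is `m (dim H¹_f - dim H⁰)`. -/
def BKpow (V : LSystem (Ω ≃ₐ[L] Ω))
    (B : ∀ (p : ℕ) [Fact p.Prime], PeriodData (Ω ≃ₐ[L] Ω) (𝓞 Ω) p) (m : ℕ) : Prop :=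
  ∃ P : HeightOneSpectrum (𝓞 L) → ℚ[X], IsEulerFamily L Ω V P ∧
    ∃ (σ : ℝ) (U : Set ℂ) (Λ : ℂ → ℂ), Continues L P m σ U Λ ∧ OrderFormula L Ω V B m Λ

theorem isEulerFamily_iff (V : LSystem (Ω ≃ₐ[L] Ω)) (P : HeightOneSpectrum (𝓞 L) → ℚ[X]) :
    IsEulerFamily L Ω V P ↔ Pool.BK.IsEulerFamily L Ω V P := by
  constructor
  · intro h v l _ hl Q hQ hQv φ hφ
    rw [← eulerPoly_eq]
    exact h v l hl Q ⟨hQ, hQv⟩ φ hφ
  · intro h v l _ hl Q hQ φ hφ
    rw [eulerPoly_eq]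
    exact h v l hl Q hQ.1 hQ.2 φ hφ

theorem bkPow_iff (V : LSystem (Ω ≃ₐ[L] Ω))
    (B : ∀ (p : ℕ) [Fact p.Prime], PeriodData (Ω ≃ₐ[L] Ω) (𝓞 Ω) p) (m : ℕ) :
    BKpow L Ω V B m ↔ Pool.BK.BKpow L Ω V B m := by
  constructor
  · rintro ⟨P, hP, σ, U, Λ, ⟨h1, h2, h3, h4, h5⟩, h6⟩
    exact ⟨P, (isEulerFamily_iff L Ω V P).1 hP, σ, U, Λ, h1, h2, h3, h4, h5, h6⟩
  · rintro ⟨P, hP, σ, U, Λ, h1, h2, h3, h4, h5, h6⟩
    exact ⟨P, (isEulerFamily_iff L Ω V P).2 hP, σ, U, Λ, ⟨h1, h2, h3, h4, h5⟩, h6⟩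

end Fields

end Short

end Pool.BK
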